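import Mathlib
import Pool.Agent.H49.CE.Targets

/-!
# MP_70000a_co, module B13: composition
-/

set_option autoImplicit false

noncomputable section

namespace CE.H29

open scoped Classical

section

variable (F : Type) [Field F] {V ι : Type} [AddCommGroup V] [Module F V]

lemma ind_quot (U : Submodule F V) (v : ι → V) (W : Submodule F (V ⧸ U)) (J : Finset ι) :
    Ind F (fun i => U.mkQ (v i)) W J ↔ Ind F v (W.comap U.mkQ) J := by
  unfold Ind
  have h : ∀ c : ι → F, (∑ i ∈ J, c i • U.mkQ (v i) ∈ W ↔ ∑ i ∈ J, c i • v i ∈ W.comap U.mkQ) := by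
    intro c
    rw [Submodule.mem_comap, map_sum]
    simp only [map_smul]
  constructor
  · intro h1 c hc
    exact h1 c ((h c).2 hc)
  · intro h1 c hc
    exact h1 c ((h c).1 hc)

lemma zz_quot (U : Submodule F V) (v : ι → V) (N : Finset ι) (x : ℝ) (W : Submodule F (V ⧸ U)) :
    ZZ F (fun i => U.mkQ (v i)) (N.filter (fun i => v i ∉ U)) x W =
      ZZ F v N x (W.comap U.mkQ) := by
  unfold ZZ
  apply Finset.sum_congr _ (fun _ _ => rfl)
  ext J
  simp only [Finset.mem_filter, Finset.mem_powerset]
  rw [ind_quot]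
  constructor
  · rintro ⟨h1, h2⟩
    exact ⟨h1.trans (Finset.filter_subset _ _), h2⟩
  · rintro ⟨h1, h2⟩
    refine ⟨?_, h2⟩
    intro i hi
    rw [Finset.mem_filter]
    refine ⟨h1 hi, fun hiU => ?_⟩
    have h3 := h2 (fun j => if j = i then 1 else 0) (by
      have : ∑ j ∈ J, (if j = i then (1 : F) else 0) • v j = v i := by
        rw [Finset.sum_eq_single i]
        · simp
        · intro b _ hb
          simp [hb]
        · intro h
          exact absurd hi h
      rw [this, Submodule.mem_comap, Submodule.mkQ_apply, (Submodule.Quotient.mk_eq_zero U).2 hiU]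
      exact W.zero_mem) i hi
    simp at h3

lemma finrank_comap_mkQ [Finite V] (U : Submodule F V) [Fintype F] (W : Submodule F (V ⧸ U)) :
    Module.finrank F (W.comap U.mkQ) = Module.finrank F U + Module.finrank F W := by
  have hfin : Module.Finite F V := Module.Finite.of_finite
  set f : (W.comap U.mkQ) →ₗ[F] W := (U.mkQ).restrict (p := W.comap U.mkQ) (q := W)
    (fun x hx => hx) with hf
  have h1 := LinearMap.finrank_range_add_finrank_ker f
  have h2 : Function.Surjective f := by
    rintro ⟨w, hw⟩
    obtain ⟨v, rfl⟩ := U.mkQ_surjective w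
    exact ⟨⟨v, hw⟩, rfl⟩
  rw [LinearMap.range_eq_top.2 h2, finrank_top] at h1
  have h3 : Module.finrank F (LinearMap.ker f) = Module.finrank F U := by
    have hle : U ≤ W.comap U.mkQ := by
      intro u hu
      rw [Submodule.mem_comap, Submodule.mkQ_apply, (Submodule.Quotient.mk_eq_zero U).2 hu]
      exact W.zero_mem
    have h4 : LinearMap.ker f = U.comap (W.comap U.mkQ).subtype := by
      ext ⟨v, hv⟩
      rw [LinearMap.mem_ker, Submodule.mem_comap]
      constructor
      · intro h
        have h5 : U.mkQ v = 0 := congrArg Subtype.val h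
        rw [Submodule.mkQ_apply, Submodule.Quotient.mk_eq_zero] at h5
        exact h5
      · intro h
        apply Subtype.ext
        show U.mkQ v = 0
        rw [Submodule.mkQ_apply, Submodule.Quotient.mk_eq_zero]
        exact h
    rw [h4]
    exact (Submodule.comapSubtypeEquivOfLe hle).finrank_eq
  omega

end

/-- Composition -/
theorem b_of_main (hM : T_MAIN) (hZ1 : T_Z1) : T_B := by
  intro F _ _ V
  suffices H : ∀ n : ℕ, ∀ (V : Type) [AddCommGroup V] [Module F V] [Finite V],
      Module.finrank F V = n →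
      ∀ (U : Type) [AddCommGroup U] [Module F U] [Finite U]
      (ι : Type) (v : ι → V) (N : Finset ι) (f : ι → U × U) (tau : ℝ),
      4 ≤ tau → 10 ^ 22 * tau ^ 24 ≤ (Nat.card U : ℝ) → (∀ i ∈ N, v i ≠ 0) →
      (∀ X : Submodule F V, X ≠ ⊥ →
        ((N.filter (fun i => v i ∈ X)).card : ℝ) < tau / 4 * (Module.finrank F X : ℝ)) →
      ∃ y : V →ₗ[F] U × U, ∀ i ∈ N, y (v i) ≠ f i by
    intro _ _ _
    exact H _ V rfl
  intro n
  induction n using Nat.strong_induction_on with
  | _ n ih =>
  intro V _ _ _ hn U _ _ _ ι v N f tau htau hL hv hN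
  have hfin : Module.Finite F V := Module.Finite.of_finite
  have hx : 0 < xx tau := by
    unfold xx
    positivity
  have hd : 0 < dd tau := by
    unfold dd
    positivity
  have hxd : xx tau * (tau / 4) = dd tau := by
    unfold xx dd
    have : tau ≠ 0 := by positivity
    field_simp
    norm_num
  obtain ⟨hZa, hZb, hZc, hZd⟩ := hZ1 F V ι v N (xx tau) hx.le
  by_cases hn0 : n = 0
  · refine ⟨0, fun i hi => ?_⟩
    exfalso
    apply hv i hi
    have : Subsingleton V := Module.finrank_zero_iff.1 (hn.trans hn0)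
    exact Subsingleton.elim _ _
  -- the minimiser
  let Phi : Submodule F V → ℝ := fun W => dd tau * (Module.finrank F W : ℝ) +
    Real.log (ZZ F v N (xx tau) W)
  have hfs : Finite (Submodule F V) := Finite.of_injective (fun W => (W : Set V))
    SetLike.coe_injective
  obtain ⟨U0, hU0⟩ := Finite.exists_min Phi
  have hPhi0 : Phi ⊥ ≤ xx tau * N.card := by
    simp only [Phi]
    rw [finrank_bot, Nat.cast_zero, mul_zero, zero_add]
    rw [Real.log_le_iff_le_exp (lt_of_lt_of_le one_pos (hZb _))]
    exact hZc _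
  have htopne : (⊤ : Submodule F V) ≠ ⊥ := by
    intro h
    have h1 : Module.finrank F (⊤ : Submodule F V) = 0 := by rw [h, finrank_bot]
    rw [finrank_top, hn] at h1
    exact hn0 h1
  have hPhiT : Phi ⊤ = dd tau * n := by
    simp only [Phi]
    rw [hZd, Real.log_one, add_zero, finrank_top, hn]
  have hcard : (N.card : ℝ) < tau / 4 * n := by
    have h1 := hN ⊤ htopne
    rw [finrank_top, hn] at h1
    simpa using h1
  have hU0T : U0 ≠ ⊤ := by
    rintro rfl
    have h1 := hU0 ⊥
    rw [hPhiT] at h1
    have h2 : xx tau * N.card < xx tau * (tau / 4 * n) := mul_lt_mul_of_pos_left hcard hx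
    rw [← mul_assoc, hxd] at h2
    linarith
  have hlt : Module.finrank F U0 < n := by
    rw [← hn]
    exact Submodule.finrank_lt hU0T
  -- avoidance on `U0`
  obtain ⟨y1', hy1'⟩ := ih _ hlt U0 rfl U ι (fun i => if h : v i ∈ U0 then ⟨v i, h⟩ else 0)
    (N.filter (fun i => v i ∈ U0)) f tau htau hL (by
      intro i hi
      obtain ⟨hiN, hiU⟩ := Finset.mem_filter.1 hi
      simp only [dif_pos hiU]
      intro h
      exact hv i hiN (congrArg Subtype.val h)) (by
      intro X hX
      have hXne : X.map U0.subtype ≠ ⊥ := by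
        intro h
        apply hX
        rw [eq_bot_iff]
        intro w hw
        have h1 : U0.subtype w ∈ X.map U0.subtype := Submodule.mem_map_of_mem hw
        rw [h, Submodule.mem_bot] at h1
        exact (Submodule.mem_bot F).2 (Subtype.ext h1)
      have h1 := hN _ hXne
      have h2 : Module.finrank F (X.map U0.subtype) = Module.finrank F X :=
        (Submodule.equivMapOfInjective U0.subtype U0.injective_subtype X).finrank_eq.symm
      rw [h2] at h1
      refine lt_of_le_of_lt ?_ h1
      rw [Nat.cast_le]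
      apply Finset.card_le_card
      intro i hi
      obtain ⟨hi1, hi2⟩ := Finset.mem_filter.1 hi
      obtain ⟨hiN, hiU⟩ := Finset.mem_filter.1 hi1
      simp only [dif_pos hiU] at hi2
      exact Finset.mem_filter.2 ⟨hiN, ⟨⟨v i, hiU⟩, hi2, rfl⟩⟩)
  obtain ⟨y1, hy1⟩ := LinearMap.exists_extend y1'
  -- avoidance on the quotient
  have hfq : Finite (V ⧸ U0) := Finite.of_surjective _ U0.mkQ_surjective
  obtain ⟨y2, hy2⟩ := hM F (V ⧸ U0) U ι (fun i => U0.mkQ (v i))
    (N.filter (fun i => v i ∉ U0)) (fun i => f i - y1 (v i)) tau htau hL (by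
      intro i hi h
      obtain ⟨hiN, hiU⟩ := Finset.mem_filter.1 hi
      apply hiU
      rwa [Submodule.mkQ_apply, Submodule.Quotient.mk_eq_zero] at h) (by
      intro W
      rw [zz_quot, zz_quot]
      have h1 := hU0 (W.comap U0.mkQ)
      have h2 : (⊥ : Submodule F (V ⧸ U0)).comap U0.mkQ = U0 := by
        rw [← LinearMap.ker, Submodule.ker_mkQ]
      rw [h2]
      simp only [Phi] at h1
      rw [finrank_comap_mkQ] at h1
      push_cast at h1
      have h3 : Real.log (ZZ F v N (xx tau) U0) ≤ dd tau * (Module.finrank F W : ℝ) +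
          Real.log (ZZ F v N (xx tau) (W.comap U0.mkQ)) := by
        linarith
      have hp1 : 0 < ZZ F v N (xx tau) U0 := lt_of_lt_of_le one_pos (hZb _)
      have hp2 : 0 < ZZ F v N (xx tau) (W.comap U0.mkQ) := lt_of_lt_of_le one_pos (hZb _)
      rw [Real.log_le_iff_le_exp hp1, Real.exp_add, Real.exp_log hp2] at h3
      exact h3)
  refine ⟨y1 + y2 ∘ₗ U0.mkQ, ?_⟩
  intro i hi
  by_cases hiU : v i ∈ U0
  · have h1 := hy1' i (Finset.mem_filter.2 ⟨hi, hiU⟩)
    simp only [dif_pos hiU] at h1
    have h2 : y1 (v i) = y1' ⟨v i, hiU⟩ := by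
      rw [← hy1]
      rfl
    rw [LinearMap.add_apply, LinearMap.comp_apply, Submodule.mkQ_apply,
      (Submodule.Quotient.mk_eq_zero U0).2 hiU, map_zero, add_zero, h2]
    exact h1
  · have h1 := hy2 i (Finset.mem_filter.2 ⟨hi, hiU⟩)
    rw [LinearMap.add_apply, LinearMap.comp_apply]
    intro h
    apply h1
    rw [← h]
    abel

end CE.H29
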