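import Mathlib
import Pool.Agent.H49.CE.Targets

/-!
# MP_70000a_co, module B7: removing few constraints
-/

set_option autoImplicit false

noncomputable section

namespace CE.H29

open scoped Classical

/-- one constraint costs at most a factor `4/3` -/
lemma at_one (F : Type) [Field F] [Fintype F] (V : Type) [AddCommGroup V] [Module F V] [Finite V]
    (E : Type) [AddCommGroup E] [Module F E] [Finite E]
    (ι : Type) (v : ι → V) (N : Finset ι) (f : ι → E) (x kap b : ℝ)
    (hZ : (∀ W W' : Submodule F V, W ≤ W' → ZZ F v N x W' ≤ ZZ F v N x W) ∧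
      (∀ W : Submodule F V, 1 ≤ ZZ F v N x W))
    (hb : 0 ≤ b) (hQ : 4 * Real.exp kap ≤ (Nat.card E : ℝ)) (T : Finset ι) (s : ι) (hs : v s ≠ 0)
    (hSP : SP F v N x kap b f T) :
    ((Av F v T f).ncard : ℝ) ≤ (4 / 3) * ((Av F v (insert s T) f).ncard : ℝ) := by
  have hfin : Finite (V →ₗ[F] E) := Finite.of_injective (fun g => (g : V → E))
    DFunLike.coe_injective
  -- an extension `z` with `z (v s) = f s`
  obtain ⟨z, hz⟩ : ∃ z : V →ₗ[F] E, z (v s) = f s := by
    obtain ⟨g, -, hg⟩ := LinearMap.exists_extend_of_notMem (0 : (⊥ : Submodule F V) →ₗ[F] E)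
      (v := v s) (by simpa using hs) (f s)
    exact ⟨g, hg⟩
  set W : Submodule F V := Submodule.span F {v s} with hW
  have h1 := hSP W z
  have hrk : Module.finrank F W = 1 := finrank_span_singleton hs
  rw [hrk, pow_one] at h1
  have hG : GG F v N x kap b W ≤ kap := by
    unfold GG
    rw [hrk]
    have h2 : Real.log (ZZ F v N x W) ≤ Real.log (ZZ F v N x ⊥) :=
      Real.log_le_log (lt_of_lt_of_le one_pos (hZ.2 W)) (hZ.1 ⊥ W bot_le)
    have h3 : 0 ≤ b * (Real.log (ZZ F v N x ⊥) - Real.log (ZZ F v N x W)) :=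
      mul_nonneg hb (sub_nonneg.2 h2)
    push_cast
    linarith
  have hsub : Av F v T f ⊆ Av F v (insert s T) f ∪ YY F v T f W z := by
    intro y hy
    by_cases hys : y (v s) = f s
    · right
      refine ⟨hy, ?_⟩
      intro w hw
      obtain ⟨c, rfl⟩ := Submodule.mem_span_singleton.1 hw
      rw [map_smul, map_smul, hys, hz]
    · left
      intro i hi
      rcases Finset.mem_insert.1 hi with rfl | hi
      · exact hys
      · exact hy i hi
  have h4 : (Av F v T f).ncard ≤ (Av F v (insert s T) f).ncard + (YY F v T f W z).ncard :=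
    (Set.ncard_le_ncard hsub (Set.toFinite _)).trans (Set.ncard_union_le _ _)
  have h4' : ((Av F v T f).ncard : ℝ) ≤
      ((Av F v (insert s T) f).ncard : ℝ) + ((YY F v T f W z).ncard : ℝ) := by
    exact_mod_cast h4
  have hA : (0 : ℝ) ≤ ((Av F v T f).ncard : ℝ) := Nat.cast_nonneg _
  have hY : (0 : ℝ) ≤ ((YY F v T f W z).ncard : ℝ) := Nat.cast_nonneg _
  have h5 : ((YY F v T f W z).ncard : ℝ) * (Nat.card E : ℝ) ≤
      Real.exp kap * ((Av F v T f).ncard : ℝ) :=
    h1.trans (mul_le_mul_of_nonneg_right (Real.exp_le_exp.2 hG) hA)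
  have h6 : ((YY F v T f W z).ncard : ℝ) * (4 * Real.exp kap) ≤
      Real.exp kap * ((Av F v T f).ncard : ℝ) :=
    (mul_le_mul_of_nonneg_left hQ hY).trans h5
  have h7 : 4 * ((YY F v T f W z).ncard : ℝ) ≤ ((Av F v T f).ncard : ℝ) := by
    have hpos := Real.exp_pos kap
    nlinarith [mul_pos hpos hpos]
  linarith

/-- the number of avoiding maps and removal of constraints -/
theorem at_of_z1 (hZ1 : T_Z1) : T_AT := by
  intro F _ _ V _ _ _ E _ _ _ ι v N T f x kap b hx hb hQ hTN hv hSP
  have hfin : Finite (V →ₗ[F] E) := Finite.of_injective (fun g => (g : V → E))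
    DFunLike.coe_injective
  obtain ⟨hZa, hZb, -, -⟩ := hZ1 F V ι v N x hx
  have key : ∀ B : Finset ι, B ⊆ T →
      ((Av F v (T \ B) f).ncard : ℝ) ≤ (4 / 3) ^ B.card * ((Av F v T f).ncard : ℝ) := by
    intro B
    induction B using Finset.induction_on with
    | empty =>
      intro _
      simp
    | insert s B hsB ih =>
      intro hBT
      have hsT : s ∈ T := hBT (Finset.mem_insert_self _ _)
      have hBT' : B ⊆ T := fun i hi => hBT (Finset.mem_insert_of_mem hi)
      have h1 := ih hBT'
      have h2 : T \ B = insert s (T \ insert s B) := by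
        ext i
        simp only [Finset.mem_sdiff, Finset.mem_insert, not_or]
        constructor
        · rintro ⟨hi, hiB⟩
          by_cases his : i = s
          · exact Or.inl his
          · exact Or.inr ⟨hi, his, hiB⟩
        · rintro (rfl | ⟨hi, -, hiB⟩)
          · exact ⟨hsT, hsB⟩
          · exact ⟨hi, hiB⟩
      have hss : T \ insert s B ⊂ T := by
        refine ⟨Finset.sdiff_subset, fun h => ?_⟩
        have := h hsT
        simp at this
      have h3 := at_one F V E ι v N f x kap b ⟨hZa, hZb⟩ hb hQ (T \ insert s B) s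
        (hv s (hTN hsT)) (hSP _ hss)
      rw [← h2] at h3
      rw [Finset.card_insert_of_notMem hsB, pow_succ]
      calc ((Av F v (T \ insert s B) f).ncard : ℝ) ≤ 4 / 3 * ((Av F v (T \ B) f).ncard : ℝ) := h3
        _ ≤ 4 / 3 * ((4 / 3) ^ B.card * ((Av F v T f).ncard : ℝ)) :=
            mul_le_mul_of_nonneg_left h1 (by norm_num)
        _ = (4 / 3) ^ B.card * (4 / 3) * ((Av F v T f).ncard : ℝ) := by ring
  refine ⟨?_, key⟩
  have h1 := key T (Finset.Subset.refl _)
  rw [Finset.sdiff_self] at h1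
  have h2 : Av F v ∅ f = Set.univ := by
    ext y
    simp [Av]
  rw [h2] at h1
  have h3 : 0 < (Set.univ : Set (V →ₗ[F] E)).ncard := by
    rw [Set.ncard_pos (Set.toFinite _)]
    exact ⟨0, trivial⟩
  by_contra hcon
  have h4 : (Av F v T f).ncard = 0 := by omega
  rw [h4] at h1
  have h5 : (0 : ℝ) < ((Set.univ : Set (V →ₗ[F] E)).ncard : ℝ) := by exact_mod_cast h3
  rw [Nat.cast_zero, mul_zero] at h1
  exact absurd h1 (not_le.2 h5)

end CE.H29
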